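import Pool.Agent.H941.ST.Form
import Pool.Agent.H941.ST.Top

/-!
# The monodromy conjecture for the germs of linear systems of plane curves

Let `f_j` be forms of the same degree `d` in three variables, and let some linear combination
`g = ∑ lam_j f_j` be of one of the types below. We treat the germs at the origin of

* the polynomial `F = ∑ y_j f_j(x₀, x₁, x₂)` in the variables `x₀, x₁, x₂` and `y_j` (`univ f`); there is no
  condition on the other members of the linear system, and on its base points. The local
  topological zeta function of `F` at the origin is `Z_I / (s + 1)`, with the topological zeta function
  `Z_I` of the ideal `I = (f_j)`, which is `Z_J / (d s + 3)`; `J` is the ideal sheaf which `I` defines on the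
  projective plane, and `Z_J` is computed by blowing up points (`ConeFormZeta`, `ConeZeta` in
  `Pool.Agent.W574.CN.Defs`, with an explanation; `PlaneZeta` and `LocalZeta` in `Pool.Agent.W574.SM.ZetaDefs`).
  (The explanation is for the global topological zeta function. In the local one at the origin,
  the fibre of the resolution `Y × ℂ ^ ι` over the origin lies in the component `H`, so that the
  factor is `1 / (s + 1)` as well, and the strata of `Z_I` which are not over the origin of `ℂ ^ 3` are
  fibred by `ℂ ^ *` and have the Euler characteristic `0`; so the two are equal.) All poles except
  possibly `-3/d` are known to be roots of `b_F` (`top_form_of`, starting library);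
* the form `g` itself, whose local topological zeta function is taken from the spaces of jets with
  origin `0` (`zetaO`, `IsTopZeta`, starting library). All poles except possibly `-3/d` are known to be
  roots of `b_g` (modules of helper940 and helper942 and the library).

So the question is whether `b_F(-3/d) = 0` and `b_g(-3/d) = 0`, and this is what we prove. By the theorem of
Malgrange and Kashiwara (not formalised), `exp(2 π i s₀)` is a monodromy eigenvalue of `F` at points near
the origin for every root `s₀` of the local `b_F`. The types of a form `f` are (the letters `f`, `g` are
independent of the ones above):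

* `SmoothComp`: `f = h ^ m g`, where `h` is a form of degree `e ≥ 2` such that the curve `h = 0` is
  smooth, `m ≥ 1`, and `g` is an ARBITRARY form: the only condition is that the reduced
  curve `G = 0` of the zeros of `g` is transversal to the curve `h = 0` (for the polynomials `F` it is also
  assumed that `3 m ≠ d`);
* `TwoLines`: `f = l₀ ^ m₀ l₁ ^ m₁ g`, where `l₀`, `l₁` are linear forms with different lines of zeros,
  `m₀, m₁ ≥ 1`, and `g` is an ARBITRARY form: the only condition is that the curve `g = 0`, which has
  the degree `N ≥ 2` as a reduced curve, meets each of the two lines in `N` different points and does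
  not contain the intersection point of the two lines;
* `CubicChain`: see below.

**The class `CubicChain`.** Let `f` be a form of degree `d` in three variables. We assume (`CubicChain`) that the curve `f = 0` is
the union of a curve `H = 0` of degree `e ≥ 3` and of curves `g_1 = 0, …, g_r = 0` such that

* `H = 0` has few bad points (`FewBad`): there are `K ≥ 0` linear forms `l_i` such that each line
  `l_i = 0` has at least `K + 4` different points on `H = 0`, and each singular point of `H = 0` is an
  ordinary double point of this curve (`NodeAt`), or a non-resonant quasi-homogeneous point of `f`
  (`QHAt`: there is a vector field `θ` with `θ f = 0` and `θ(z) = c z`, which has integer weights on the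
  tangent space, and `3 c` is no integer), or the product of the `l_i` is locally at this point in the
  ideal of the partial derivatives of `H` (`JacAt`). So arbitrary singular points are allowed, if the
  degree of `H` is large in comparison with the degrees of their Milnor algebras. Or, more
  generally, the continuous sections of `O(3)` on `H = 0`, which are regular at the non-resonant
  quasi-homogeneous points of `f`, are cubic forms (`Cubic`);
* let `D_j` be the union of `H = 0` and the curves `g_l = 0`, `l < j`. Then `g_j` is irreducible and
  `g_j = 0` has more than `3 deg (g_j)` different points on `D_j`, or `g_j = 0` meets `D_j` only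
  transversally or in non-resonant quasi-homogeneous points of `f`, and `D_j` has degree at least
  four or `g_j` is irreducible;
* `H = 0` has degree at least four and no other singular points than ordinary double points, or the
  linear vector fields which annihilate `f` have trace `0` (`TrZero`). (If there is such a field of
  trace `≠ 0`, then `f ^ (-3/d) dx₀ dx₁ dx₂` is exact.)

The multiplicities of all components in `f` are arbitrary, and so are the singularities of the
curves `g_j = 0` outside of `D_j` (in the first case, all of their singularities and intersections).
So the curve `f = 0` may have singular points which are not quasi-homogeneous.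

The proof of `b(-3/d) = 0`; put `s = -3/d` and let `s < 0` be no root of `b`:

* `bert`: there is a line which meets the reduced curve `Q = 0` in `N = deg Q` points; let it be
  the line at infinity for the affine coordinates `t = x₀`, `x₁ = 1`, `x = x₂`, such that the given
  points have different coordinates `t`, and the branches at the double points are not vertical;
* `exact_two'`, `dat`: the functional equation gives (by `root_of_not_exact`, in the library)
  `f ^ s = ∂_t (P f ^ (s - K)) + ∂_x (R f ^ (s - K))` with polynomials; over the field `ℂ(t)` the
  order of the pole along `Q = 0` can be reduced to one;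
* `fin_pt2`, `lim_inf'`: let `a_1(t), …, a_N(t)` be the roots of `Q(t, 1, x)`. The residues `y_j(t)` of
  the primitive at these roots satisfy a linear differential system. As all exponents are
  negative, an energy identity shows that they are bounded at all finite points, that they have
  the SAME limit on all branches through a point, and that `y_j = O(t ^ 3)` at infinity;
* `poly`: so the primitive `f ^ s = ∂_t (p f ^ s / Q) + ∂_x (ρ f ^ s / Q)` has polynomials `p, ρ`. By
  `tends` the residue `y` is a continuous section of `O(3)` on the curve;
* `loc`, `reg_form`: at a non-resonant quasi-homogeneous point, the vector field acts on the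
  truncated local ring with eigenvalues that are combinations of the weights; the shifted operator
  is invertible, so that the residue is the restriction of a regular function;
* `bdd_poly_t`, `start_local`: for the bad points, the product of the function `y` with the linear
  forms `l_i` is regular on `H = 0`, since it is in the ideal of the partial derivatives; so it is the
  restriction of a polynomial `B` of degree at most `K + 3` (by the growth at infinity);
* `strip`: at the points where a line `l_i = 0` meets `H = 0`, the polynomial `B` is `0`; there are at
  least `K + 4` such points on the line, so `l_i` divides `B` modulo `H`. By induction, `y` is the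
  restriction of a polynomial `Z` of degree at most three;
* `step`: the function `y - Z` on `g_j = 0` vanishes at the more than `3 deg (g_j)` points where the
  curve meets the previous ones, and is bounded by `t ^ 3`: the product of its values at the roots
  is an entire function of `t` with more zeros than its growth allows; `step2`, `step3`: the
  function `(y - Z) / D_j` on `g_j = 0` has no poles, and it is zero or a constant by its growth at
  infinity. By induction, `y = Z` on `Q = 0`;
* `endgame`: after subtracting `∂_t (∂_x (Z f ^ s)) - ∂_x (∂_t (Z f ^ s))`, the primitive is a vector field
  without poles which is tangent to `Q = 0`, of the total degree at most two. It vanishes if `H = 0`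
  has ordinary double points and degree at least four (`fin_nod`), and otherwise it comes from a
  linear vector field of trace `≠ 0` which annihilates `f` (`fin_lin`); this is a contradiction.
-/

set_option autoImplicit false

namespace Pool.Agent.Results.MP_aa7fc1_ag.LinearSystemForms

open MvPolynomial Pool.Agent.W574.CN Pool.Agent.H941.TF Pool.Agent.H941.SC Pool.Agent.H941.QK
open Pool.Agent.W574.HS (univ)
open Pool.Agent.W428.MOT (MK Lu)
open Pool.Agent.TH192.MT (zetaO)
open Pool.Agent.TH192.MU (IsTopZeta)
open Pool.Agent.H628R4.TP (IsLocalBFunction)

/-- **Q1 for the germs at the origin of the polynomials `F = ∑ y_j f_j(x₀, x₁, x₂)` with a good member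
`g = ∑ lam_j f_j` of the linear system, and for `g` itself.**

Let `f_j` be forms of degree `d` in three variables.

(1) If `g` is in the class `CubicChain`, `SmoothComp` (with `3 m ≠ d`) or `TwoLines`, then for every polynomial
`b` with `b(s) F ^ s = P(s) F ^ (s + 1)`, where `P(s)` is a differential operator with formal power series
coefficients, polynomial in `s` (for instance the local `b_F`), `b(-3/d) = 0`, and every pole of the local
topological zeta function of `F` at the origin is a root of `b`.

(2) If `g` is in one of these classes (`3 m = d` is allowed), then the same holds for `g` instead of `F`. Here
`Z` is the local topological zeta function of `g` at the origin (`IsTopZeta E ε (zetaO g) Z`: for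
`s = 1, 2, …`, `Z(s)` is the value under `ε` of the local motivic zeta function of `g` at `T = 𝕃 ^ (-s)`, after a
realisation `E` with values in a domain `R`, where `ε (E 𝕃) = 1` and `E 𝕃 ≠ 1`; for instance the Euler
characteristic, from the Hodge-Deligne polynomials). -/
theorem result {ι : Type} [Fintype ι] [DecidableEq ι] (f : ι → MvPolynomial (Fin 3) ℂ) (d : ℕ)
    (hf : ∀ j, (f j).IsHomogeneous d) (lam : ι → ℂ) (g : MvPolynomial (Fin 3) ℂ)
    (hg : g = ∑ j, C (lam j) * f j) :
    ((CubicChain g ∨ (∃ m, SmoothComp m g ∧ 3 * m ≠ d) ∨ TwoLines g) →
      ∀ b : Polynomial ℂ, IsLocalBFunction (univ f) b → b.eval (-3 / d : ℂ) = 0 ∧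
        ∀ Z : RatFunc ℂ, ConeFormZeta f d Z → ∀ s₀ : ℂ, Z.denom.eval s₀ = 0 → b.eval s₀ = 0) ∧
    ((CubicChain g ∨ (∃ m, SmoothComp m g) ∨ TwoLines g) →
      ∀ b : Polynomial ℂ, IsLocalBFunction g b → b.eval (-3 / d : ℂ) = 0 ∧
        ∀ {R : Type} [CommRing R] [IsDomain R] (E : MK ℂ →+* R) (ε : R →+* ℂ),
          ε (E ((Lu ℂ : (MK ℂ)ˣ) : MK ℂ)) = 1 → E ((Lu ℂ : (MK ℂ)ˣ) : MK ℂ) ≠ 1 →
          ∀ Z : RatFunc ℂ, IsTopZeta E ε (zetaO g) Z →
            ∀ s₀ : ℂ, Z.denom.eval s₀ = 0 → b.eval s₀ = 0) := by
  have hg' : g = Pool.Agent.Helper748.MC.lcomb f lam := hg
  subst hg'
  refine ⟨fun h b hb => Pool.Agent.H941.ST.form_poles f d hf lam h b (Or.inr hb), fun h b hb => ?_⟩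
  have hL := Pool.Agent.Helper748.MC.lcomb_homog hf lam
  have hr := Pool.Agent.H941.ST.one_root hL h
  exact ⟨hr.2.2 b (Pool.Agent.H941.TF.glob hr.2.1 hL (Or.inr hb)), fun E ε hε hE Z hZ s₀ hs =>
    Pool.Agent.H940.P.mal_top E ε hε hE (Pool.Agent.H941.ST.ma_mal hL hr).2 Z hZ s₀ hs b hb⟩

end Pool.Agent.Results.MP_aa7fc1_ag.LinearSystemForms
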