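import Pool.Agent.H941.TG.Main
import Pool.Agent.H941.QK.Class
import Pool.Agent.H941.SC.Class
import Pool.Agent.H941.TF.Lines
import Pool.Graph.R_pool_sql_team_seeded_620a6dc7.helper748_mc_.Thm
import Pool.Graph.R_pool_sql_team_seeded_620a6dc7.helper748_mc_.FanThm

/-!
# The candidate pole `-3/d` of surface germs, from the tangent cone

Let `F` be a polynomial in three variables with `F(0) = 0`, let `d` be its multiplicity at the origin, and let
`G = F_d` be its initial form, so that the curve `G = 0` in the projective plane is the tangent cone of the surface
`F = 0` at the origin. The exceptional divisor of the blow-up of the origin gives the candidate pole `-3/d` of the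
local topological zeta function of `F`. We prove that `-3/d` **is a root of the local Bernstein-Sato polynomial of
`F`** if the tangent cone satisfies a condition; the higher terms `F - G` are arbitrary, and nothing is assumed on
the singularities of the surface `F = 0`. So (Malgrange, Kashiwara; not formalised) `exp (-6 π i / d)` is an
eigenvalue of the monodromy of `F` at a point near the origin, and Q1 holds, in its strong form, for the pole
`s₀ = -3/d` (if it is a pole).

The condition is that `G ^ (-3/d)` is not exact (`¬ Exact d G (-3/d)`): there are no `K` and forms `v_i` of the degree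
`d K + 1` such that `G ^ (-3/d)` is the divergence of the vector field `v G ^ (-3/d - K)`. It only depends on the
tangent cone, and it is satisfied for

* all strictly semistable plane curves `G = 0` (in the sense of geometric invariant theory, with multiplicities;
  library);
* the curves of degree `d ≠ 3` with a point of the multiplicity `d - 1` and a simple tangent at it which meets
  the curve only there (`FanForm`, library);
* `G = h ^ m g`, where `h = 0` is a smooth curve of a degree `≥ 2`, and `g` is any form whose reduced curve is
  transversal to `h = 0` (`SmoothComp`), if `3 m ≠ d`; or with two lines instead of `h = 0` (`TwoLines`);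
* the forms `G` with any multiplicities whose reduced curve is the union of a curve `H = 0` of a degree `≥ 4` with
  only ordinary double points and of curves `g_j = 0` (any number), which meet the previous ones transversally,
  or which are irreducible with arbitrary singularities and have more than `3 deg g_j` different points on the
  previous ones (`NodalChain`); more generally (by `Pool.Agent.H941.QK.not_exact`) for the forms `G` of the class
  `CubicChain` of helper941's hand-ins of this name.

If `G` itself is considered (`F = G`), then the last two classes are in the hand-ins `CubicChain` and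
`TransversalComponents` of helper941 for MP_6163c8_ag, and the first two in the library; new is that all
surface germs with these tangent cones have the root `-3/d`. The tangent cone may have multiple components, and
neither `F` nor `G` need to be nondegenerate or quasi-homogeneous.

**The proof** (`Pool.Agent.H941.TG`). Let `s = -3/d` and `b(s) ≠ 0`.

* (`loc_of_b`) From the functional equation with formal power series coefficients we get, by truncation and by
  flatness, a polynomial `u` with `u(0) ≠ 0` and a vector field `v` with polynomial coefficients such that
  `u F ^ s = div (v F ^ (s - K - 1))` for some `K`.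
* (`step`, `reduce`) Let `n` be the order of `v` and `V` its initial form. As long as `n < d K + 1`, the initial form of
  the right-hand side has a smaller degree than the left-hand side, so `div (V G ^ (s - K - 1)) = 0`. By the homotopy
  formula for the Euler field (`rot_cross`), `V G ^ (s - K - 1)` is, up to the factor
  `n + 2 + (s - K) d = n - 1 - K d ≠ 0`, the rotation of `(V × x) G ^ (s - K - 1)`. The rotation of the field
  `(V × x) F ^ (s - K - 1)` has divergence zero, and we subtract a multiple of it from `v F ^ (s - K - 1)`.
  This raises the order of `v` relative to `d K`: after multiplication with `F` the new `v` has an order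
  `≥ n + d + 1`, while `K` becomes `K + 1`. After finitely many steps the order of `v` is `≥ d K + 1`.
* (`exact_of_loc`) Then the initial forms of both sides of the equation give `G ^ s = div (V' G ^ (s - K - 1))` up to
  the factor `u(0)`, where the coefficients of `V'` are forms of the degree `d K + 1`. So `G ^ s` is exact.
-/

set_option autoImplicit false

namespace Pool.Agent.Results.MP_aa7fc1_ag.TangentCones

open MvPolynomial Pool.Agent.H628R4.TP Pool.Agent.Helper748.MC
open Pool.Agent.H941.QK (CubicChain)
open Pool.Agent.H941.SC (SmoothComp)
open Pool.Agent.H941.TF (TwoLines)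
open Pool.Agent.H941.QH (NodeAt ManyPts)

/-- **Curves built from a nodal curve.** The reduced curve of `G = 0` is the union of a curve `H = 0` of the degree
`e ≥ 4`, whose singular points are ordinary double points, and of curves `g j = 0` (`H * ∏ g j` is squarefree, it
divides `G`, and `G` divides a power of it; the multiplicities are arbitrary). Let `D j` be the union of `H = 0` and
the curves `g l = 0`, `l < j`. Each `g j` is irreducible with at least `3 deg (g j) + 1` different points on `D j`
(and has arbitrary singularities), or it meets `D j` only transversally. -/
def NodalChain (G : MvPolynomial (Fin 3) ℂ) : Prop :=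
  ∃ (r k e : ℕ) (n : Fin r → ℕ) (H : MvPolynomial (Fin 3) ℂ)
    (g : Fin r → MvPolynomial (Fin 3) ℂ),
    H.IsHomogeneous e ∧ (∀ j, (g j).IsHomogeneous (n j)) ∧ 4 ≤ e ∧
    Squarefree (H * ∏ j, g j) ∧ H * ∏ j, g j ∣ G ∧ G ∣ (H * ∏ j, g j) ^ k ∧
    (∀ z : Fin 3 → ℂ, z ≠ 0 → eval z H = 0 → (∀ i, eval z (pderiv i H) = 0) → NodeAt H z) ∧
    ∀ j, (Irreducible (g j) ∧
        ManyPts (3 * n j + 1) (g j) (H * ∏ l ∈ Finset.univ.filter (· < j), g l)) ∨
      ∀ z : Fin 3 → ℂ, z ≠ 0 → eval z (g j) = 0 →
        eval z (H * ∏ l ∈ Finset.univ.filter (· < j), g l) = 0 → ∀ a b : ℂ,
        (∀ i, a * eval z (pderiv i (g j)) +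
          b * eval z (pderiv i (H * ∏ l ∈ Finset.univ.filter (· < j), g l)) = 0) → a = 0 ∧ b = 0

theorem NodalChain.chain {G : MvPolynomial (Fin 3) ℂ} (h : NodalChain G) : CubicChain G := by
  obtain ⟨r, k, e, n, H, g, h1, h2, h3, h4, h5, h6, h7, h8⟩ := h
  refine ⟨r, k, e, n, H, g, h1, h2, by omega, h4, h5, h6, Or.inl ⟨0, Fin.elim0, fun i => i.elim0,
    fun z hz h0 hs => Or.inl (h7 z hz h0 hs)⟩, Or.inl ⟨h3, h7⟩, fun j => ?_⟩
  exact (h8 j).imp_right fun h => ⟨Or.inl (by omega), fun z hz ha hb => Or.inl (h z hz ha hb)⟩

/-- **The root `-3/d` of the local Bernstein-Sato polynomials of all surface germs with a given tangent cone.**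
Let `F` be a polynomial in three variables without terms of degree `< d`, where `d ≥ 1`, and let `G` be its
homogeneous part of degree `d`. Suppose that `G ≠ 0` and `G ^ (-3/d)` is not exact (`Exact`), or that `G` is strictly
semistable (Hilbert-Mumford criterion), or of the class `FanForm` and `d ≠ 3`, or of the class `NodalChain`, or
`G = h ^ m g` with a smooth curve `h = 0` of a degree `≥ 2` transversal to the arbitrary curve `g = 0` and
`3 m ≠ d` (`SmoothComp`), or `G = l₀ ^ m₀ l₁ ^ m₁ g` with two lines transversal to the arbitrary curve `g = 0`
(`TwoLines`). Then `-3/d` is a root of every polynomial `b` which satisfies a functional equation of `F` with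
formal power series operators (for instance the local Bernstein-Sato polynomial of `F` at the origin). -/
theorem result (F : MvPolynomial (Fin 3) ℂ) (d : ℕ) (hd : 1 ≤ d)
    (hF : ∀ k < d, homogeneousComponent k F = 0) (G : MvPolynomial (Fin 3) ℂ)
    (hG : G = homogeneousComponent d F)
    (hc : (G ≠ 0 ∧ ¬ Exact d G (-3 / d)) ∨ StrictlySemistable G ∨ (FanForm G ∧ d ≠ 3) ∨
      NodalChain G ∨ (∃ m, SmoothComp m G ∧ 3 * m ≠ d) ∨ TwoLines G)
    (b : Polynomial ℂ) (hb : IsLocalBFunction F b) : b.eval (-3 / d : ℂ) = 0 := by
  subst hG
  have hh : (homogeneousComponent d F).IsHomogeneous d := homogeneousComponent_isHomogeneous _ _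
  have h : homogeneousComponent d F ≠ 0 ∧ ¬ Exact d (homogeneousComponent d F) (-3 / d) := by
    rcases hc with h | h | h | h | ⟨m, h, hm⟩ | h
    · exact h
    · exact not_exact_of hd hh (Or.inl h)
    · exact not_exact_fan hd h.2 hh h.1
    · exact ⟨h.chain.ne, Pool.Agent.H941.QK.not_exact hh h.chain⟩
    · exact ⟨h.ne, Pool.Agent.H941.SC.not_exact_smooth hh h hm⟩
    · exact (Pool.Agent.H941.TF.not_exact_lines hh h).2
  exact Pool.Agent.H941.TG.root_of_cone hd hF h.1 h.2 (Or.inr hb)

end Pool.Agent.Results.MP_aa7fc1_ag.TangentCones
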